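import Mathlib
import Pool.Agent.Lib.MP_7b50be_co.Final

set_option autoImplicit false

namespace Pool.Agent.Results.MP_7b50be_co.ErdeEven

open Pool.Agent.Lib.MP_7b50be_co

/-- For every even `n ≥ 2` and every `k ≥ 1` with `k ≤ 2 ^ n - 1` and `k ∣ n * 2 ^ (n - 1)`, the
edge set of the hypercube `Q_n` can be partitioned into copies of the path `P_{k+1}`. -/
theorem result : ∀ n : ℕ, Even n → 2 ≤ n → ∀ k : ℕ, 1 ≤ k → k ≤ 2 ^ n - 1 →
    k ∣ n * 2 ^ (n - 1) → PartitionsIntoPaths (hypercube n) k :=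
  fun _ hn hn2 _ hk hk2 hdvd => erde hn hn2 hk hk2 hdvd

end Pool.Agent.Results.MP_7b50be_co.ErdeEven
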